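import Pool.Agent.MA87.Core
import Pool.Agent.MA87.Manifold

/-!
# MP_87f2fd_gt : a compact Hermitian manifold with vanishing minimal Monge-Ampere volume

The manifold is the complex nilmanifold `Γ \ ℂ³`, where `Γ = ℤ[i]³` acts on `ℂ³` by
`(a, b, c) * (x, y, w) = (x + a, y + b, w + c + Im a * x - Im b * y)`, with the Hermitian form
`ω = (i/4) (dx ∧ dx̄ + dy ∧ dȳ + θ ∧ θ̄)`, `θ = dw - (Im x - 1/2) dx + (Im y - 1/2) dy`.
-/

open Complex MeasureTheory
open scoped ContDiff

noncomputable section

namespace Pool.Agent.Results.MP_87f2fd_gt.ZeroVolume

open Pool.Agent.MA87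

/-- A compact connected Hausdorff complex manifold of complex dimension `n` (charts in `ℂⁿ`,
complex analytic coordinate changes), with its Borel sets, together with a smooth Hermitian
metric `form`. -/
structure CompactHermitianManifold (n : ℕ) where
  /-- the underlying set -/
  carrier : Type
  [top : TopologicalSpace carrier]
  [meas : MeasurableSpace carrier]
  [borel : BorelSpace carrier]
  [charted : ChartedSpace (Fin n → ℂ) carrier]
  [mfd : IsManifold (modelWithCornersSelf ℂ (Fin n → ℂ)) ω carrier]
  [compact : CompactSpace carrier]
  [hausdorff : T2Space carrier]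
  [connected : ConnectedSpace carrier]
  /-- the Hermitian metric -/
  form : HermitianForm n carrier

attribute [instance] CompactHermitianManifold.top CompactHermitianManifold.meas
  CompactHermitianManifold.borel CompactHermitianManifold.charted CompactHermitianManifold.mfd
  CompactHermitianManifold.compact CompactHermitianManifold.hausdorff
  CompactHermitianManifold.connected

/-- `T(X, ω)`: the infimum of the Monge-Ampere volumes of the smooth `ω`-plurisubharmonic
functions on `X`. -/
def CompactHermitianManifold.T {n : ℕ} (X : CompactHermitianManifold n) : ENNReal := X.form.T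

/-- There is a compact Hermitian manifold `(X, ω)`, of dimension three, with `T(X, ω) = 0`. -/
theorem _root_.Pool.Agent.Results.MP_87f2fd_gt.ZeroVolume.result :
    ∃ X : CompactHermitianManifold 3, X.T = 0 := by
  obtain ⟨M, _, _, _, _, _, _, _, _, w, hw⟩ := manifold_of_core core
  exact ⟨⟨M, w⟩, hw⟩

end Pool.Agent.Results.MP_87f2fd_gt.ZeroVolume
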